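import Pool.Agent.helper95.SP.SpecCH

/-!
# Project sp, part CH, module LG: locality of gates
-/

namespace TP.K

open DP MeasureTheory

theorem LG_three {c c' : V → Bool} {x : V} {m n : ℕ} (h : ∀ v ∈ ann x m n, c v = c' v) :
    Three c x m n ↔ Three c' x m n := by
  unfold Three
  simp only [Conn.congr (R := ann x m n) h]

theorem LG_four {c c' : V → Bool} {x : V} {m n : ℕ} (h : ∀ v ∈ ann x m n, c v = c' v) :
    four c x m n ↔ four c' x m n := by
  unfold four twoCl
  simp only [Conn.congr (R := ann x m n) h]

theorem LG : LG_stmt := by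
  intro x a b
  refine ⟨Loc.ev (ann_finite x _ _) fun c c' h => ?_, Loc.ev (ann_finite x _ _) fun c c' h => ?_⟩
  · unfold Gate
    rw [LG_three h, LG_four h]
  · exact LG_three h

end TP.K
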